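import Pool.Agent.Helper49.LC.St

set_option autoImplicit false

open scoped ContDiff

namespace Pool.Agent.Helper22.LC

open Pool.Agent.Helper14.LK Pool.Agent.Helper49.LC
open Pool.Agent.Helper14.LE (hd lt mk StLAG StEXL StIEA StIET)

theorem hLIN (hTHE : StTHE) (hDF1 : StDF1) (hDF2 : StDF2) (hRNG : StRNG) (hIET : StIET)
    (hEQV : StEQV) : StLIN := by
  intro k hk ι R hKn h1 h2
  obtain ⟨hmi, hR⟩ := hRNG k ι R hKn
  obtain ⟨Θ, Θi, hΘ, hΘi, hl, hr, hlt, hneg, hfar⟩ := hTHE k ι R hKn h1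
  obtain ⟨D, σ, R₂, hDs, hDiso, hDimm, hDinj, hDfar, hD0, hσ1, hσ2, hσ3, hD1⟩ :=
    hDF1 k ι R hKn h1 h2 Θ Θi hΘ hΘi hl hr hlt hneg hfar (R + 2) le_rfl
  have hD2 := hDF2 k ι R hKn Θ (fun y => ⟨Θi y, hr y⟩) hlt (R + 2) σ (deriv σ) (D 1) le_rfl
    hσ1 hσ2 hσ3 hD1
  have hrange : Set.range (D 1) = Set.range (su ι (pc (mk (0, 2 * (R + 2))) 1 (mi ι))) := by
    ext w
    rw [hD2 w, hR (R + 2) le_rfl w]
  have hplane : Set.range (D 0) = Plane (k + 1) := by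
    ext w
    constructor
    · rintro ⟨x, rfl⟩
      rw [hD0]
      show (0 : EE (k + 1)) = 0
      rfl
    · intro hw
      refine ⟨w.1, ?_⟩
      rw [hD0]
      exact Prod.ext rfl (show (0 : EE (k + 1)) = w.2 from (hw : w.2 = 0).symm)
  have hiso : HamIsotopic (Set.range (D 0)) (Set.range (D 1)) :=
    hIET (k + 1) (by omega) D R₂ hDs hDiso hDimm hDinj hDfar
  rw [hplane, hrange] at hiso
  refine ⟨hmi, ?_, (hEQV.1 (k + 1) (by omega) _ _).1 hiso⟩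
  have h3 := Pool.Agent.Helper14.LE.abs_lt_le (mk (0, 2 * (R + 2)) : EE (k + 1))
  rw [Pool.Agent.Helper14.LE.lt_mk] at h3
  have h4 : 2 * (R + 2) ≤ |((0 : EE k), 2 * (R + 2)).2| := le_abs_self _
  linarith

end Pool.Agent.Helper22.LC
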