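import Pool.Agent.Helper49.LC.St

set_option autoImplicit false

open scoped ContDiff Topology

namespace Pool.Agent.Helper22.LC

open Pool.Agent.Helper14.LK Pool.Agent.Helper49.LC
open Pool.Agent.Helper14.LE (hd lt mk StLAG StEXL StIEA StIET)

private theorem WE1_lip {E F : Type} [NormedAddCommGroup E] [NormedSpace ℝ E]
    [NormedAddCommGroup F] [NormedSpace ℝ F] {V : ℝ → E → F} {K : NNReal}
    (h : LipschitzWith K (Function.uncurry V)) (t : ℝ) : LipschitzWith K (V t) := by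
  intro x y
  have h1 := h (t, x) (t, y)
  simpa [Function.uncurry, Prod.edist_eq] using h1

private theorem WE1_const {E : Type} [NormedAddCommGroup E] [NormedSpace ℝ E]
    {V G : ℝ → E → E} {K : NNReal} (hK : LipschitzWith K (Function.uncurry V))
    (hG0 : ∀ w, G 0 w = w) (hGd : ∀ t w, HasDerivAt (fun s => G s w) (V t (G t w)) t) (w : E)
    (hw : ∀ t, V t w = 0) (t : ℝ) : G t w = w := by
  have h1 : (fun t => G t w) = fun _ => w := by
    refine ODE_solution_unique_univ (v := V) (s := fun _ => Set.univ) (K := K) (t₀ := 0) ?_ ?_ ?_ ?_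
    · intro t
      exact (WE1_lip hK t).lipschitzOnWith
    · intro t
      exact ⟨hGd t _, Set.mem_univ _⟩
    · intro t
      refine ⟨?_, Set.mem_univ _⟩
      rw [hw t]
      exact hasDerivAt_const t w
    · exact hG0 w
  exact congrFun h1 t

private theorem WE1_stat {E : Type} [NormedAddCommGroup E] [NormedSpace ℝ E]
    {V G : ℝ → E → E} (hGd : ∀ t w, HasDerivAt (fun s => G s w) (V t (G t w)) t) (w : E)
    (a b : ℝ) (hab : a ≤ b) (hV : ∀ t ∈ Set.Ico a b, V t (G t w) = 0) : G b w = G a w := by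
  have h1 := constant_of_has_deriv_right_zero (f := fun s => G s w) (a := a) (b := b)
    (fun x _ => (hGd x w).continuousAt.continuousWithinAt)
    (fun x hx => by
      have h2 := hGd x w
      rw [hV x hx] at h2
      exact h2.hasDerivWithinAt)
  exact h1 b (Set.right_mem_Icc.2 hab)

private theorem WE1_tube {n : ℕ} (G : ℝ → WW n → WW n) (hGc : Continuous (Function.uncurry G))
    (r δ₀ : ℝ) (hδ₀ : 0 < δ₀) (hGx : ∀ t x, G t (x, 0) = (x, 0)) :
    ∃ δ₁ : ℝ, 0 < δ₁ ∧ ∀ t ∈ Set.Icc (-1 : ℝ) 2, ∀ w : WW n, ‖w.1‖ ≤ r → ‖w.2‖ < δ₁ →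
      ‖(G t w).2‖ < δ₀ := by
  obtain ⟨f, hf⟩ : ∃ f : (ℝ × EE n) × EE n → ℝ, f = fun p => ‖(G p.1.1 (p.1.2, p.2)).2‖ := ⟨_, rfl⟩
  have hfc : Continuous f := by
    have h1 : Continuous (fun p : (ℝ × EE n) × EE n => (p.1.1, ((p.1.2, p.2) : WW n))) := by fun_prop
    have h2 := hGc.comp h1
    rw [hf]
    exact continuous_norm.comp (continuous_snd.comp h2)
  have ho : IsOpen (f ⁻¹' (Set.Iio δ₀)) := isOpen_Iio.preimage hfc
  have hsub : ((Set.Icc (-1 : ℝ) 2) ×ˢ (Metric.closedBall (0 : EE n) r)) ×ˢ {(0 : EE n)} ⊆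
      f ⁻¹' (Set.Iio δ₀) := by
    rintro ⟨⟨t, x⟩, y⟩ ⟨-, hy⟩
    have hy0 : y = 0 := hy
    rw [Set.mem_preimage, Set.mem_Iio, hf, hy0]
    simp only
    rw [hGx]
    simpa using hδ₀
  obtain ⟨u, v, -, hv, hsu, htv, huv⟩ := generalized_tube_lemma
    (isCompact_Icc.prod (isCompact_closedBall (0 : EE n) r)) isCompact_singleton ho hsub
  have h0v : (0 : EE n) ∈ v := htv (Set.mem_singleton _)
  obtain ⟨δ₁, hδ₁, hball⟩ := Metric.isOpen_iff.1 hv 0 h0v
  refine ⟨δ₁, hδ₁, fun t ht w hw1 hw2 => ?_⟩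
  have h3 : (t, w.1) ∈ u := hsu ⟨ht, by rw [mem_closedBall_zero_iff]; exact hw1⟩
  have h4 : w.2 ∈ v := hball (by rw [mem_ball_zero_iff]; exact hw2)
  have h5 : f ((t, w.1), w.2) < δ₀ := huv (Set.mk_mem_prod h3 h4)
  rw [hf] at h5
  exact h5

theorem hWE1 (hTUB : StTUB) (hPRI : StPRI) (hVFW : StVFW) (hMOL : StMOL) (hFLO : StFLO) : StWE1 := by
  intro n hn ι R hι hiso himm hfar
  obtain ⟨F, hFs, hF0, hFfar, hFsym⟩ := hTUB n ι R hι hiso himm hfar
  obtain ⟨σ, hσs, hσd, hσ0, hσfar⟩ := hPRI n hn F R hFs hFfar hFsym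
  have hRR : R ≤ |R| := le_abs_self R
  have hR0 : 0 ≤ |R| := abs_nonneg R
  have hFd : ∀ w b, |R| + 2 ≤ ‖w.1‖ → fderiv ℝ F w b = b := by
    intro w b hw
    have hev : F =ᶠ[𝓝 w] (fun z => z) := by
      have ho : IsOpen {z : WW n | R < ‖z.1‖} := isOpen_lt continuous_const (continuous_norm.comp continuous_fst)
      filter_upwards [ho.mem_nhds (show R < ‖w.1‖ by linarith)] with z hz
      exact hFfar z hz
    rw [hev.fderiv_eq]
    simp
  obtain ⟨δ₀, β, V, hδ₀, hβs, hβ0, hβ1, hVs, hVc, hV0, hVfar, hVt, hVeq⟩ :=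
    hVFW n F σ (|R| + 2) hFs hσs hFd (fun w hw => hσfar w (by linarith)) hσ0 hFsym
  obtain ⟨K, hK⟩ : ∃ K : NNReal, LipschitzWith K (Function.uncurry V) :=
    hVs.lipschitzWith_of_hasCompactSupport hVc (by simp)
  obtain ⟨G, Gi, hGs, hGis, hG0, hGd, hGGi, hGiG⟩ := hFLO (WW n) V hVs ⟨K, hK⟩
  have hGx : ∀ t x, G t (x, 0) = (x, 0) := fun t x =>
    WE1_const hK hG0 hGd (x, 0) (fun t => hV0 t x) t
  have hGfar : ∀ t w, |R| + 2 ≤ ‖w.1‖ → G t w = w := fun t w hw =>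
    WE1_const hK hG0 hGd w (fun t => hVfar t w hw) t
  have hG2 : ∀ t w, 2 ≤ t → G t w = G 2 w := by
    intro t w ht
    exact WE1_stat hGd w 2 t ht (fun s hs => hVt s _ (by
      intro h
      linarith [h.2, hs.1]))
  have hG1 : ∀ t w, t ≤ -1 → G t w = G (-1) w := by
    intro t w ht
    exact (WE1_stat hGd w t (-1) ht (fun s hs => hVt s _ (by
      intro h
      linarith [h.1, hs.2]))).symm
  have hGc : Continuous (Function.uncurry G) := hGs.continuous
  -- the tube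
  obtain ⟨δ, hδ, hδδ, hstay⟩ : ∃ δ : ℝ, 0 < δ ∧ δ ≤ δ₀ ∧ ∀ w : WW n, ‖w.2‖ < δ → ∀ t, ‖(G t w).2‖ < δ₀ := by
    obtain ⟨δ₁, hδ₁, hT⟩ := WE1_tube G hGc (|R| + 2) δ₀ hδ₀ hGx
    refine ⟨min δ₁ δ₀, lt_min hδ₁ hδ₀, min_le_right _ _, ?_⟩
    intro w hw t
    by_cases hw1 : |R| + 2 ≤ ‖w.1‖
    · rw [hGfar t w hw1]
      exact lt_of_lt_of_le hw (min_le_right _ _)
    · have key : ∀ s ∈ Set.Icc (-1 : ℝ) 2, ‖(G s w).2‖ < δ₀ := by
        intro s hs
        exact hT s hs w (not_le.1 hw1).le (lt_of_lt_of_le hw (min_le_left _ _))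
      rcases le_total t (-1) with h1 | h1
      · rw [hG1 t w h1]
        exact key (-1) ⟨le_rfl, by norm_num⟩
      · rcases le_total t 2 with h2 | h2
        · exact key t ⟨h1, h2⟩
        · rw [hG2 t w h2]
          exact key 2 ⟨by norm_num, le_rfl⟩
  have hG1s : ContDiff ℝ ∞ (G 1) := by
    have : G 1 = fun w => Function.uncurry G (1, w) := rfl
    rw [this]
    exact hGs.comp (contDiff_const.prodMk contDiff_id)
  refine ⟨fun w => F (G 1 w), |R| + 2, δ, hδ, by linarith, by linarith, hFs.comp hG1s, ?_, ?_, ?_⟩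
  · intro x
    show F (G 1 (x, 0)) = ι x
    rw [hGx, hF0]
  · intro w hw
    show F (G 1 w) = w
    rw [hGfar 1 w hw]
    exact hFfar w (by linarith)
  · intro w hw a b
    have hU : IsOpen {w : WW n | ‖w.2‖ < δ₀} :=
      isOpen_lt (continuous_norm.comp continuous_snd) continuous_const
    have h1 := hMOL n {w : WW n | ‖w.2‖ < δ₀} hU F σ β V G hFs hσs hβs hVs hGs hG0 hGd hσd
      (fun t w hw b => hVeq t w b hw) hβ0 w (fun s => hstay w hw s) 1 a b
    rw [hβ1] at h1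
    have hcomp : ∀ c, fderiv ℝ (fun w => F (G 1 w)) w c = fderiv ℝ F (G 1 w) (fderiv ℝ (G 1) w c) := by
      intro c
      have h2 : fderiv ℝ (F ∘ (G 1)) w = (fderiv ℝ F (G 1 w)).comp (fderiv ℝ (G 1) w) :=
        fderiv_comp w (hFs.differentiable (by simp)).differentiableAt
          (hG1s.differentiable (by simp)).differentiableAt
      have h3 : fderiv ℝ (fun w => F (G 1 w)) w = fderiv ℝ (F ∘ (G 1)) w := rfl
      rw [h3, h2]
      rfl
    rw [hcomp, hcomp]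
    linarith

end Pool.Agent.Helper22.LC
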